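import Pool.Agent.Work.MP_db9399_kr.Interface
import Pool.Agent.Work.MP_db9399_sx_helper79.MIDX
import Pool.Agent.Work.MP_db9399_sx_helper1.FINX

/-!
# MP_db9399, all scales: KR (helper23)

Pieces of type K with reserved vertices: SSE3 (edges between light vertices of different spots,
`cR` protected), PROM (inner edges at the reserved vertices), FINR (VMIX and FIN).
-/

set_option autoImplicit false

namespace Pool.Agent.Work.MP_db9399_kr.helper23

open Finset Classical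
open Pool.Agent.Work.MP_db9399_all (nb)
open Pool.Agent.Work.MP_db9399_dn (IsMat Tot)
open Pool.Agent.Work.MP_db9399_bg (HPre)
open Pool.Agent.Work.MP_db9399_sl (InS Same Gout Gss Gin Gex Out)
open Pool.Agent.Work.MP_db9399_sv (GsL GxL)
open Pool.Agent.Work.MP_db9399_sw (shs avl ac wt Gxh Grh Lgt)
open Pool.Agent.Work.MP_db9399_sx (Grp Lts)
open Pool.Agent.Work.MP_db9399_kr
open Pool.Agent.Work.MP_db9399_sx.helper79 (mem_nb' mem_Lts gsL_iff gxL_cases)
open Pool.Agent.Work.MP_db9399_sx.helper1 (out_mono)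

set_option linter.unusedSectionVars false

universe u

section
variable {V : Type u} [Fintype V] {k : ℕ}

/-- the situation for SSE3 -/
theorem out_gxL {δ π : ℝ} {G : SimpleGraph V} {d : ℕ} {Ys : Finset (Finset V)} {Hs : Finset V}
    {c0 tu cc : V → Fin k} {t : V → V → Fin k} {E : V → Finset (Fin k)} {K0 : Finset (Fin k)}
    {C : Fin 3 → Finset (Fin k)} {p : V → Fin 3} {a : V → Bool} {Z : Finset V}
    (hO : Out δ π G (Gxh G Ys Hs) (Grh G ⊥ Ys Hs) ⊥ d Ys ∅ c0 tu cc t E K0 C p a Z) :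
    Out δ π G (GxL G ⊥ Ys (Lts Ys Hs)) (GsL G ⊥ Ys (Lts Ys Hs)) ⊥ d Ys ∅ c0 tu cc t
      E K0 C p a Z := by
  have hx : ∀ v w, (GxL G ⊥ Ys (Lts Ys Hs)).Adj v w → (Gxh G Ys Hs).Adj v w := by
    intro v w h
    rcases gxL_cases G ⊥ Ys Hs v w h with h1 | h1
    · exact h1
    · exact absurd h1 (by simp)
  have hset : ∀ v w, (GxL G ⊥ Ys (Lts Ys Hs)).Adj v w ∨ (⊥ : SimpleGraph V).Adj v w →
      (Gxh G Ys Hs).Adj v w ∨ (⊥ : SimpleGraph V).Adj v w := by
    intro v w h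
    rcases h with h | h
    · exact Or.inl (hx v w h)
    · exact Or.inr h
  refine
    { K0c := hO.K0c
      cU := hO.cU
      cK := hO.cK
      cc := hO.cc
      ts := hO.ts
      te := hO.te
      tK := fun v w h hE => hO.tK v w (hx v w h) hE
      tc := fun v w h hv => hO.tc v w (hx v w h) hv
      ti := ?_
      Et := ?_
      EK := hO.EK
      EU := hO.EU
      Ed := ?_
      CK := hO.CK
      Cc := hO.Cc
      Cd := hO.Cd
      UZ := hO.UZ
      ZY := hO.ZY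
      av := hO.av
      cell := hO.cell
      ld := hO.ld }
  · intro v w hw w' hw' h
    exact hO.ti v (hset v w hw) (hset v w' hw') h
  · intro v w hv h
    exact hO.Et v w hv (hset v w h)
  · intro v hv
    have h1 : nb (GsL G ⊥ Ys (Lts Ys Hs)) v = nb (Grh G ⊥ Ys Hs) v := by
      ext w
      rw [mem_nb', mem_nb', gsL_iff]
    rw [h1]
    exact hO.Ed v hv

/-- spot vertices after the removal of `U` -/
theorem inS_Ys2 {Ys : Finset (Finset V)} {U : Finset V} {v : V} :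
    InS (Ys2 Ys U) v ↔ InS Ys v ∧ v ∉ U := by
  constructor
  · rintro ⟨Y', hY', hv⟩
    obtain ⟨Y, hY, rfl⟩ := mem_image.1 hY'
    exact ⟨⟨Y, hY, (mem_sdiff.1 hv).1⟩, (mem_sdiff.1 hv).2⟩
  · rintro ⟨⟨Y, hY, hv⟩, hvU⟩
    exact ⟨Y \ U, mem_image_of_mem _ hY, mem_sdiff.2 ⟨hv, hvU⟩⟩

/-- the spots without the reserved vertices -/
theorem spR_Ys2 {θ θ2 η η2 η' : ℝ} {G : SimpleGraph V} {d : ℕ} {Ys : Finset (Finset V)}
    {U : Finset V} (hS : SpR θ η G d Ys) (hU : ∀ Y ∈ Ys, ((Y ∩ U).card : ℝ) ≤ η' * d)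
    (hη' : 0 ≤ η') (hη0 : 0 ≤ η) (h1 : θ + η' ≤ θ2) (h2 : θ2 ≤ 1 / 10)
    (h3 : 2 * (η + η') ≤ η2) : SpR θ2 η2 G d (Ys2 Ys U) := by
  have hd0 : (0 : ℝ) ≤ d := Nat.cast_nonneg _
  have hc : ∀ Y : Finset V, ((Y \ U).card : ℝ) + (Y ∩ U).card = Y.card := by
    intro Y
    exact_mod_cast card_sdiff_add_card_inter Y U
  have hn : ∀ (Y : Finset V) (v : V), ((nb G v ∩ Y).card : ℝ) ≤
      (nb G v ∩ (Y \ U)).card + (Y ∩ U).card := by
    intro Y v
    have h : nb G v ∩ Y ⊆ (nb G v ∩ (Y \ U)) ∪ (Y ∩ U) := by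
      intro w hw
      rw [mem_inter] at hw
      rw [mem_union, mem_inter, mem_inter, mem_sdiff]
      by_cases hwU : w ∈ U
      · exact Or.inr ⟨hw.2, hwU⟩
      · exact Or.inl ⟨hw.1, hw.2, hwU⟩
    exact_mod_cast (card_le_card h).trans (card_union_le _ _)
  have hθd : (θ + η') * d ≤ θ2 * d := mul_le_mul_of_nonneg_right h1 hd0
  have hd2 : θ2 * d ≤ 1 / 10 * d := mul_le_mul_of_nonneg_right h2 hd0
  refine
    { deg := hS.deg
      dis := ?_
      low := ?_
      upp := ?_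
      din := ?_
      inn := ?_
      sum := ?_ }
  · intro A hA B hB hAB
    obtain ⟨Y, hY, rfl⟩ := mem_image.1 hA
    obtain ⟨Y', hY', rfl⟩ := mem_image.1 hB
    have hne : Y ≠ Y' := fun h => hAB (by rw [h])
    exact disjoint_of_subset_left sdiff_subset
      (disjoint_of_subset_right sdiff_subset (hS.dis Y hY Y' hY' hne))
  · intro A hA
    obtain ⟨Y, hY, rfl⟩ := mem_image.1 hA
    have e1 := hc Y
    have e2 := hU Y hY
    have e3 := hS.low Y hY
    nlinarith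
  · intro A hA
    obtain ⟨Y, hY, rfl⟩ := mem_image.1 hA
    have e1 := hc Y
    have e3 := hS.upp Y hY
    have e4 : (0 : ℝ) ≤ (Y ∩ U).card := Nat.cast_nonneg _
    have e5 : 0 ≤ η' * d := by positivity
    nlinarith
  · intro A hA v hv
    obtain ⟨Y, hY, rfl⟩ := mem_image.1 hA
    have e1 := hn Y v
    have e2 := hU Y hY
    have e3 := hS.din Y hY v (mem_sdiff.1 hv).1
    nlinarith
  · intro A hA v hv
    obtain ⟨Y, hY, rfl⟩ := mem_image.1 hA
    have e3 := hS.inn Y hY v (mem_sdiff.1 hv).1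
    have e4 : (((Y \ U) \ nb G v).card : ℝ) ≤ (Y \ nb G v).card := by
      exact_mod_cast card_le_card (sdiff_subset_sdiff sdiff_subset Subset.rfl)
    have e5 : 0 ≤ η' * d := by positivity
    nlinarith
  · intro A hA
    obtain ⟨Y, hY, rfl⟩ := mem_image.1 hA
    have e0 := hS.sum Y hY
    have e1 := hc Y
    have e2 := hU Y hY
    have e3 := hS.low Y hY
    have e4 := hS.upp Y hY
    have s1 : ∑ v ∈ Y \ U, ((d : ℝ) - (nb G v ∩ (Y \ U)).card) ≤
        ∑ v ∈ Y \ U, (((d : ℝ) - (nb G v ∩ Y).card) + η' * d) := by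
      apply sum_le_sum
      intro v _
      have := hn Y v
      linarith
    have s2 : ∑ v ∈ Y \ U, (((d : ℝ) - (nb G v ∩ Y).card) + η' * d) ≤
        ∑ v ∈ Y, (((d : ℝ) - (nb G v ∩ Y).card) + η' * d) := by
      apply sum_le_sum_of_subset_of_nonneg sdiff_subset
      intro v _ _
      have e6 : ((nb G v ∩ Y).card : ℝ) ≤ d := by
        exact_mod_cast (card_le_card inter_subset_left).trans (hS.deg v)
      have e7 : 0 ≤ η' * d := by positivity
      linarith
    have s3 : ∑ v ∈ Y, (((d : ℝ) - (nb G v ∩ Y).card) + η' * d) =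
        ∑ v ∈ Y, ((d : ℝ) - (nb G v ∩ Y).card) + Y.card * (η' * d) := by
      rw [sum_add_distrib, sum_const, nsmul_eq_mul]
    have s4 : (Y.card : ℝ) ≤ 2 * (Y \ U).card := by nlinarith
    have s5 : (η + η') * d * Y.card ≤ (η + η') * d * (2 * (Y \ U).card) :=
      mul_le_mul_of_nonneg_left s4 (by positivity)
    have s6 : 2 * (η + η') * (d * (Y \ U).card) ≤ η2 * (d * (Y \ U).card) :=
      mul_le_mul_of_nonneg_right h3 (by positivity)
    calc ∑ v ∈ Y \ U, ((d : ℝ) - (nb G v ∩ (Y \ U)).card)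
        ≤ ∑ v ∈ Y, ((d : ℝ) - (nb G v ∩ Y).card) + Y.card * (η' * d) := by
          rw [← s3]; exact s1.trans s2
      _ ≤ η * d * Y.card + Y.card * (η' * d) := by linarith
      _ = (η + η') * d * Y.card := by ring
      _ ≤ (η + η') * d * (2 * (Y \ U).card) := s5
      _ = 2 * (η + η') * (d * (Y \ U).card) := by ring
      _ ≤ η2 * (d * (Y \ U).card) := s6
      _ = η2 * d * (Y \ U).card := by ring

/-- availability: few vertices of a short spot are blocked for a colour which is not reserved -/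
theorem avail {δ e s η' ζ τ : ℝ} {G : SimpleGraph V} {d : ℕ} {Ys : Finset (Finset V)}
    {U Y Z : Finset V} {cR cc : V → Fin k} {E E' E2 : V → Finset (Fin k)} {b : Fin k}
    (hY : Y ∈ shs d Ys) (hζ : 0 ≤ ζ)
    (hlow : ζ / 2 * d ≤ (Y.card : ℝ)) (hcU : ((Y ∩ U).card : ℝ) ≤ η' * d)
    (hZ : ((Y ∩ Z).card : ℝ) ≤ δ * d)
    (hld : ((Y.filter (fun v => v ∉ Z ∧ b ∈ E v)).card : ℝ) ≤ δ * d)
    (hs : ((Y.filter (fun v => b ∈ E' v ∧ b ∉ E v)).card : ℝ) ≤ s * d)
    (h2 : ((Y \ U).filter (fun v => b ∈ E2 v ∧ b ∉ E' v)).card ≤ (Y ∩ U).card)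
    (hb : ∀ y ∈ Y ∩ U, cR y ≠ b)
    (hUb : ((∑ y ∈ U.filter (fun y => y ∉ Y ∧ cR y = b), (nb G y ∩ Y).card : ℕ) : ℝ) ≤ e * d)
    (hOw : OwnR ζ τ e G d Ys U cR cc) :
    (ζ / 2 - (2 * δ + s + 2 * η' + 2 * e)) * d ≤
      ((avl G (Ys2 Ys U) ∅ (cc2 U cR cc) E2 (Y \ U) b).card : ℝ) := by
  have hYs : Y ∈ Ys := by
    unfold shs at hY
    exact (mem_filter.1 hY).1
  have hd0 : (0 : ℝ) ≤ d := Nat.cast_nonneg _
  have hnb : ∀ v w : V, w ∈ nb G v ↔ G.Adj v w := fun v w => mem_nb' G v w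
  obtain ⟨Q1, hQ1⟩ : ∃ Q : Finset V, Q = Y.filter (fun v => ∃ y ∈ U, y ∉ Y ∧ cR y = b ∧
    G.Adj v y) := ⟨_, rfl⟩
  obtain ⟨Q2, hQ2⟩ : ∃ Q : Finset V, Q = Y.filter (fun v => ∃ w, ¬ InS Ys w ∧ cc w = b ∧
    ((nb G w ∩ Y).card : ℝ) < τ * d ∧ G.Adj v w) := ⟨_, rfl⟩
  have c1 : (Q1.card : ℝ) ≤ e * d := by
    refine le_trans ?_ hUb
    have h1 : Q1.card ≤ ∑ y ∈ U.filter (fun y => y ∉ Y ∧ cR y = b), (nb G y ∩ Y).card := by
      refine le_trans (card_le_card (t := (U.filter (fun y => y ∉ Y ∧ cR y = b)).biUnion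
        (fun y => nb G y ∩ Y)) ?_) card_biUnion_le
      intro v hv
      rw [hQ1, mem_filter] at hv
      obtain ⟨hvY, y, g1, g2, g3, g4⟩ := hv
      rw [mem_biUnion]
      exact ⟨y, mem_filter.2 ⟨g1, g2, g3⟩, mem_inter.2 ⟨(hnb y v).2 g4.symm, hvY⟩⟩
    exact_mod_cast h1
  have c2 : (Q2.card : ℝ) ≤ e * d := by
    refine le_trans ?_ (hOw.non Y hY b hb)
    have h1 : Q2.card ≤ ∑ w ∈ univ.filter (fun w => ¬ InS Ys w ∧ cc w = b ∧
        ((nb G w ∩ Y).card : ℝ) < τ * d), (nb G w ∩ Y).card := by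
      refine le_trans (card_le_card (t := (univ.filter (fun w => ¬ InS Ys w ∧ cc w = b ∧
        ((nb G w ∩ Y).card : ℝ) < τ * d)).biUnion (fun w => nb G w ∩ Y)) ?_) card_biUnion_le
      intro v hv
      rw [hQ2, mem_filter] at hv
      obtain ⟨hvY, w, g1, g2, g3, g4⟩ := hv
      rw [mem_biUnion]
      exact ⟨w, mem_filter.2 ⟨mem_univ _, g1, g2, g3⟩, mem_inter.2 ⟨(hnb w v).2 g4.symm, hvY⟩⟩
    exact_mod_cast h1
  obtain ⟨X, hX⟩ : ∃ X : Finset V, X = (Y ∩ U) ∪ ((Y ∩ Z) ∪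
    (Y.filter (fun v => v ∉ Z ∧ b ∈ E v) ∪ (Y.filter (fun v => b ∈ E' v ∧ b ∉ E v) ∪
    ((Y \ U).filter (fun v => b ∈ E2 v ∧ b ∉ E' v) ∪ (Q1 ∪ Q2))))) := ⟨_, rfl⟩
  have hXc : (X.card : ℝ) ≤ (2 * δ + s + 2 * η' + 2 * e) * d := by
    have h1 : X.card ≤ (Y ∩ U).card + ((Y ∩ Z).card +
        ((Y.filter (fun v => v ∉ Z ∧ b ∈ E v)).card +
          ((Y.filter (fun v => b ∈ E' v ∧ b ∉ E v)).card +
          (((Y \ U).filter (fun v => b ∈ E2 v ∧ b ∉ E' v)).card + (Q1.card + Q2.card))))) := by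
      rw [hX]
      exact (card_union_le _ _).trans (Nat.add_le_add_left ((card_union_le _ _).trans
        (Nat.add_le_add_left ((card_union_le _ _).trans (Nat.add_le_add_left
          ((card_union_le _ _).trans (Nat.add_le_add_left ((card_union_le _ _).trans
            (Nat.add_le_add_left (card_union_le _ _) _)) _)) _)) _)) _)
    have h3 : (((Y \ U).filter (fun v => b ∈ E2 v ∧ b ∉ E' v)).card : ℝ) ≤ (Y ∩ U).card := by
      exact_mod_cast h2
    have h4 : (X.card : ℝ) ≤ (Y ∩ U).card + ((Y ∩ Z).card +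
        ((Y.filter (fun v => v ∉ Z ∧ b ∈ E v)).card +
          ((Y.filter (fun v => b ∈ E' v ∧ b ∉ E v)).card +
          (((Y \ U).filter (fun v => b ∈ E2 v ∧ b ∉ E' v)).card + (Q1.card + Q2.card))))) := by
      exact_mod_cast h1
    linarith
  have key : ∀ v ∈ Y, v ∉ X → (∀ w, ¬ InS Ys w → cc w = b →
      τ * d ≤ ((nb G w ∩ Y).card : ℝ) → ¬ G.Adj v w) →
      v ∈ avl G (Ys2 Ys U) ∅ (cc2 U cR cc) E2 (Y \ U) b := by
    intro v hvY hvX hvh
    rw [hX, mem_union, mem_union, mem_union, mem_union, mem_union, mem_union, mem_inter,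
      mem_inter, mem_filter, mem_filter, mem_filter] at hvX
    push Not at hvX
    obtain ⟨x1, x2, x3, x4, x5, x6, x7⟩ := hvX
    have hvU : v ∉ U := x1 hvY
    have hvZ : v ∉ Z := x2 hvY
    have b1 : b ∉ E v := x3 hvY hvZ
    have b2 : b ∉ E' v := fun h => b1 (x4 hvY h)
    have b3 : b ∉ E2 v := fun h => b2 (x5 (mem_sdiff.2 ⟨hvY, hvU⟩) h)
    unfold avl
    refine mem_filter.2 ⟨mem_sdiff.2 ⟨hvY, hvU⟩, notMem_empty _, b3, ?_⟩
    intro hac
    unfold ac at hac
    obtain ⟨w, hw, hwb⟩ := mem_image.1 hac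
    obtain ⟨hw1, hw2⟩ := mem_filter.1 hw
    have hadj : G.Adj v w := (hnb v w).1 hw1
    have hw3 : ¬ InS (Ys2 Ys U) w := fun h => notMem_empty _ (hw2 h)
    rw [inS_Ys2] at hw3
    by_cases hwU : w ∈ U
    · have e1 : cR w = b := by
        rw [← hwb]
        unfold cc2
        rw [if_pos hwU]
      by_cases hwY : w ∈ Y
      · exact hb w (mem_inter.2 ⟨hwY, hwU⟩) e1
      · apply x6
        rw [hQ1]
        exact mem_filter.2 ⟨hvY, w, hwU, hwY, e1, hadj⟩
    · have e1 : cc w = b := by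
        rw [← hwb]
        unfold cc2
        rw [if_neg hwU]
      have hwS : ¬ InS Ys w := fun h => hw3 ⟨h, hwU⟩
      rcases lt_or_ge ((nb G w ∩ Y).card : ℝ) (τ * d) with h | h
      · apply x7
        rw [hQ2]
        exact mem_filter.2 ⟨hvY, w, hwS, e1, h, hadj⟩
      · exact hvh w hwS e1 h hadj
  by_cases hhub : ∃ w0, ¬ InS Ys w0 ∧ cc w0 = b ∧ τ * d ≤ ((nb G w0 ∩ Y).card : ℝ)
  · obtain ⟨w0, w1, w3, w4⟩ := hhub
    have habs := hOw.abs Y hYs w0 w1
    have hsub : Y \ nb G w0 ⊆ avl G (Ys2 Ys U) ∅ (cc2 U cR cc) E2 (Y \ U) b ∪ X := by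
      intro v hv
      obtain ⟨hvY, hvn⟩ := mem_sdiff.1 hv
      by_cases h1 : v ∈ X
      · exact mem_union_right _ h1
      refine mem_union_left _ (key v hvY h1 ?_)
      intro w g1 g3 g4 g5
      by_cases h3 : w = w0
      · rw [h3] at g5
        exact hvn ((hnb _ _).2 g5.symm)
      · exact hOw.dif Y hY w w0 g1 w1 h3 g4 w4 (g3.trans w3.symm)
    have h1 : (Y \ nb G w0).card ≤ (avl G (Ys2 Ys U) ∅ (cc2 U cR cc) E2 (Y \ U) b).card +
        X.card := (card_le_card hsub).trans (card_union_le _ _)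
    have h2' : ((Y \ nb G w0).card : ℝ) ≤
        (avl G (Ys2 Ys U) ∅ (cc2 U cR cc) E2 (Y \ U) b).card + X.card := by exact_mod_cast h1
    have h3 : 0 ≤ ζ / 2 * d := by positivity
    linarith
  · push Not at hhub
    have hsub : Y ⊆ avl G (Ys2 Ys U) ∅ (cc2 U cR cc) E2 (Y \ U) b ∪ X := by
      intro v hvY
      by_cases h1 : v ∈ X
      · exact mem_union_right _ h1
      refine mem_union_left _ (key v hvY h1 ?_)
      intro w g1 g3 g4 g5
      have := hhub w g1 g3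
      linarith
    have h1 : Y.card ≤ (avl G (Ys2 Ys U) ∅ (cc2 U cR cc) E2 (Y \ U) b).card + X.card :=
      (card_le_card hsub).trans (card_union_le _ _)
    have h2' : (Y.card : ℝ) ≤
        (avl G (Ys2 Ys U) ∅ (cc2 U cR cc) E2 (Y \ U) b).card + X.card := by exact_mod_cast h1
    linarith

end

/-- **KR** (from SSE3, PROM, FINR) -/
theorem stmt_KR (hSSE : Pool.Agent.Work.MP_db9399_sv.Stmt_SSE3.{u}) (hPROM : Stmt_PROM.{u})
    (hFINR : Stmt_FINR.{u}) : Stmt_KR.{u} := by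
  obtain ⟨π, δf, θf, hπ, hπ3, hδf, hθf, hθf1, hFIN⟩ := hFINR
  refine ⟨π, θf / 2, hπ, hπ3, by positivity, by linarith, ?_⟩
  intro ζ hζ hζ1
  obtain ⟨x, hxd⟩ : ∃ x : ℝ, x = min (ζ / 4) θf := ⟨_, rfl⟩
  have hx0 : 0 < x := by
    rw [hxd]
    exact lt_min (by positivity) hθf
  have hxζ : x ≤ ζ / 4 := by rw [hxd]; exact min_le_left _ _
  have hxθ : x ≤ θf := by rw [hxd]; exact min_le_right _ _
  obtain ⟨ηf, dF, hηf, hF⟩ := hFIN x hx0 hxθ
  obtain ⟨q, hq0, hq1, hq2, hq3, hq4, hq5⟩ : ∃ q : ℝ, 0 < q ∧ q ≤ 1 / 4000 ∧ q ≤ ζ / 100 ∧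
      q ≤ δf / 8 ∧ q ≤ ηf / 8 ∧ q ≤ θf / 2 :=
    ⟨min (min (1 / 4000) (ζ / 100)) (min (δf / 8) (min (ηf / 8) (θf / 2))), by positivity,
      (min_le_left _ _).trans (min_le_left _ _), (min_le_left _ _).trans (min_le_right _ _),
      (min_le_right _ _).trans (min_le_left _ _),
      (min_le_right _ _).trans ((min_le_right _ _).trans (min_le_left _ _)),
      (min_le_right _ _).trans ((min_le_right _ _).trans (min_le_right _ _))⟩
  obtain ⟨θ', dS, hθ', hS⟩ := hSSE q π (1 / 3) q hq0 hπ hπ3 (by linarith) (by norm_num) hq0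
  obtain ⟨dP, hP⟩ := hPROM (2 * q) π (θf / 2) q q (by positivity) (by linarith) hπ hπ3
    (by positivity) (by linarith) hq0 (by linarith)
  refine ⟨q, q, θ', q, q, max (max dF dS) (max dP 1), hq0, hq0, hθ', hq0, hq0, ?_⟩
  intro V _ k τ G d Ys Hs U c0 tu cc cR t E K0 C p a Z hd hG _ _ hO hC hOw hR
  have hdF : dF ≤ d := by omega
  have hdS : dS ≤ d := by omega
  have hdP : dP ≤ d := by omega
  have hd1 : 1 ≤ d := by omega
  have hd0 : (0 : ℝ) < d := by exact_mod_cast hd1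
  have hUS : ∀ y ∈ U, InS Ys y := by
    intro y hy
    obtain ⟨Y, hY, hyY⟩ := hR.UY y hy
    unfold shs at hY
    exact ⟨Y, (mem_filter.1 hY).1, hyY⟩
  -- the edges between light vertices of different spots
  obtain ⟨t', E', h1, h2, h3, h4, h5, h6, h7, h8, h9⟩ := hS G d k Ys ∅ (Lts Ys Hs) c0 ⊥ tu cc
    t E K0 C p a Z (fun v => if v ∈ U then {cR v} else ∅) K0 ∅ hdS hG.deg (by
      intro Y hY
      have g1 := hG.upp Y hY
      have g2 : (Y.card : ℝ) ≤ ((2 * d : ℕ) : ℝ) := by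
        push_cast
        nlinarith
      exact_mod_cast g2) hG.dis (by
      intro Y hY v hv hvL
      rw [mem_Lts] at hvL
      exact hG.lig Y hY v hv hvL.2) hG.pre (by
      intro v
      split_ifs
      · rw [card_singleton]
        omega
      · rw [card_empty]
        omega) (by
      intro v _
      split_ifs with hv
      · rw [disjoint_singleton_right]
        exact hR.Uf v hv
      · exact disjoint_empty_right _) Subset.rfl (by
      intro i j
      have g1 : K0.card ≤ (K0 \ (C i ∪ C j)).card + (C i ∪ C j).card := by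
        have := le_card_sdiff (C i ∪ C j) K0
        omega
      have g2 : (C i ∪ C j).card ≤ (C i).card + (C j).card := card_union_le _ _
      have g3 : ((K0.card : ℕ) : ℝ) ≤ (K0 \ (C i ∪ C j)).card + ((C i).card + (C j).card) := by
        exact_mod_cast g1.trans (Nat.add_le_add_left g2 _)
      rw [hO.K0c] at g3
      push_cast at g3
      have g4 := hC i
      have g5 := hC j
      have g6 : π * d ≤ 1 / 3 * d := mul_le_mul_of_nonneg_right hπ3.le hd0.le
      linarith) (by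
      intro Y _
      rw [inter_empty, sum_empty]
      push_cast
      positivity) (out_gxL hO)
  have hSp : SpR (θf / 2) q G d Ys :=
    { deg := hG.deg
      dis := hG.dis
      low := hG.low
      upp := hG.upp
      din := hG.din
      inn := hG.inn
      sum := hG.sum }
  have hR' : RsQ q q G d Ys U cR cc E' K0 :=
    { UY := hR.UY
      Uc := hR.Uc
      Ui := hR.Ui
      Ua := hR.Ua
      Uk := hR.Uk
      Uf := by
        intro y hy
        have g1 := h6 y (hUS y hy)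
        rw [if_pos hy, disjoint_singleton_right] at g1
        exact g1
      Uo := hR.Uo
      Ub := hR.Ub }
  -- the inner edges at the reserved vertices
  obtain ⟨t2, E2, p1, p2, p3, p4⟩ := hP q G d Ys U c0 tu cc cR t' E' K0 C p a Z hdP hSp hC h9 hR'
  -- the colours of the reserved vertices of one spot
  have hFy : ∀ Y ∈ Ys, FyR Ys U cR (Y \ U) = (Y ∩ U).image cR := by
    intro Y hY
    have hYc : (99 / 100 : ℝ) * d ≤ Y.card := by
      refine le_trans ?_ (hG.low Y hY)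
      exact mul_le_mul_of_nonneg_right (by linarith) hd0.le
    have hne : (Y \ U).Nonempty := by
      rw [← card_pos]
      have g1 : ((Y \ U).card : ℝ) + (Y ∩ U).card = Y.card := by
        exact_mod_cast card_sdiff_add_card_inter Y U
      have g2 := hR.Uc Y hY
      have g3 : q * d ≤ 1 / 4000 * d := mul_le_mul_of_nonneg_right hq1 hd0.le
      have g4 : (0 : ℝ) < (Y \ U).card := by linarith
      exact_mod_cast g4
    ext b
    unfold FyR
    rw [mem_image, mem_image]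
    constructor
    · rintro ⟨y, hy, rfl⟩
      obtain ⟨hyU, Y1, hY1, hyY1, hYY⟩ := mem_filter.1 hy
      have hY1Y : Y1 = Y := by
        by_contra hn
        obtain ⟨v, hv⟩ := hne
        have hv1 : v ∈ Y1 \ U := by rw [hYY]; exact hv
        exact disjoint_left.1 (hG.dis Y1 hY1 Y hY hn) (mem_sdiff.1 hv1).1 (mem_sdiff.1 hv).1
      rw [hY1Y] at hyY1
      exact ⟨y, mem_inter.2 ⟨hyY1, hyU⟩, rfl⟩
    · rintro ⟨y, hy, rfl⟩
      obtain ⟨hyY, hyU⟩ := mem_inter.1 hy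
      exact ⟨y, mem_filter.2 ⟨hyU, Y, hY, hyY, rfl⟩, rfl⟩
  -- short spots
  have hsh : ∀ Y2 ∈ shs d (Ys2 Ys U), ∃ Y ∈ shs d Ys, Y \ U = Y2 := by
    intro Y2 hY2
    unfold shs at hY2
    obtain ⟨g1, g2⟩ := mem_filter.1 hY2
    obtain ⟨Y, hY, rfl⟩ := mem_image.1 g1
    refine ⟨Y, ?_, rfl⟩
    unfold shs
    refine mem_filter.2 ⟨hY, ?_⟩
    by_contra hn
    have hYU : Y \ U = Y := by
      rw [Finset.sdiff_eq_self_iff_disjoint, disjoint_left]
      intro y hyY hyU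
      obtain ⟨Y1, hY1, hyY1⟩ := hR.UY y hyU
      unfold shs at hY1
      obtain ⟨f1, f2⟩ := mem_filter.1 hY1
      by_cases h : Y1 = Y
      · rw [h] at f2
        exact hn f2
      · exact disjoint_left.1 (hG.dis Y1 f1 Y hY h) hyY1 hyY
    rw [hYU] at g2
    exact hn g2
  refine hF G d (Ys2 Ys U) c0 tu (cc2 U cR cc) t2 E2 K0 C p a Z (FyR Ys U cR) hdF
    (spR_Ys2 hSp hR.Uc hq0.le hq0.le (by linarith) (by linarith) (by linarith)) hC
    (out_mono p1 (by linarith)) ?_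
  intro Y2 hY2
  obtain ⟨Y, hY, rfl⟩ := hsh Y2 hY2
  have hYS : Y ∈ Ys := by
    unfold shs at hY
    exact (mem_filter.1 hY).1
  have hYd : Y.card < d := by
    unfold shs at hY
    exact (mem_filter.1 hY).2
  have hcU := hR.Uc Y hYS
  rw [hFy Y hYS]
  have e1 : (Y \ U).card + (Y ∩ U).card = Y.card := card_sdiff_add_card_inter Y U
  have e2 : ((Y ∩ U).image cR).card ≤ (Y ∩ U).card := card_image_le
  refine ⟨?_, by omega, ?_, ?_, ?_⟩
  · intro b hb
    obtain ⟨y, hy, rfl⟩ := mem_image.1 hb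
    exact hR.Uk y (mem_inter.1 hy).2
  · have e3 : (((Y ∩ U).image cR).card : ℝ) ≤ (Y ∩ U).card := by exact_mod_cast e2
    have e4 : q * d ≤ 10 * ηf * d := mul_le_mul_of_nonneg_right (by linarith) hd0.le
    linarith
  · have g1 := p4 Y hY
    rw [hFy Y hYS] at g1
    exact e2.trans g1
  · intro b hbK hbF
    have hb : ∀ y ∈ Y ∩ U, cR y ≠ b := by
      intro y hy h
      exact hbF (mem_image.2 ⟨y, hy, h⟩)
    have g1 := avail (E2 := E2) hY hζ.le (by
      have g2 := hG.low Y hYS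
      have g3 : ζ * d ≤ 1 * d := mul_le_mul_of_nonneg_right hζ1 hd0.le
      nlinarith) hcU (hO.ZY Y hYS) (hO.ld Y hYS b) (h7 Y hYS b) (p3 Y hYS b) hb
      (hR.Ub Y hY b hb) hOw
    refine le_trans ?_ g1
    apply mul_le_mul_of_nonneg_right _ hd0.le
    linarith

end Pool.Agent.Work.MP_db9399_kr.helper23
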